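import Mathlib
import Pool.Agent.H12.Median

set_option autoImplicit false

namespace Pool.Agent.Results.MP_2f8eff_co.NoPeripheral

open Pool.Agent.H12.Median

def d : Fin 8 → Fin 8 → ℕ :=
  ![![0, 1, 1, 2, 2, 2, 3, 3],
    ![1, 0, 2, 1, 1, 1, 2, 2],
    ![1, 2, 0, 1, 3, 3, 2, 4],
    ![2, 1, 1, 0, 2, 2, 1, 3],
    ![2, 1, 3, 2, 0, 2, 3, 1],
    ![2, 1, 3, 2, 2, 0, 1, 1],
    ![3, 2, 2, 1, 3, 1, 0, 2],
    ![3, 2, 4, 3, 1, 1, 2, 0]]

def G : SimpleGraph (Fin 8) := ofTable d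

theorem h0 : ∀ u v, d u v = 0 → u = v := by decide +kernel

theorem h1 : ∀ u v, d u v ≠ 0 → ∃ w, (ofTable d).Adj u w ∧ d w v + 1 = d u v := by decide +kernel

theorem dist_G : G.dist = d := funext₂ fun u v =>
  Pool.Agent.H12.Dist.dist_eq (ofTable d) d h0 h1 (by decide +kernel) (by decide +kernel) u v

theorem median : IsMedian G := by
  refine ⟨Pool.Agent.H12.Dist.connected (ofTable d) d h0 h1, ?_⟩
  simp only [OnGeo, dist_G, ExistsUnique]
  decide +kernel

theorem result : ¬ ∀ (n : ℕ) (G : SimpleGraph (Fin n)), IsMedian G → ∀ a b c,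
    Triametral G a b c → Peripheral G a ∨ Peripheral G b ∨ Peripheral G c := by
  intro h
  have h2 := h 8 G median 0 4 6
  simp only [Triametral, Peripheral, Diametral, tri, dist_G] at h2
  revert h2
  decide +kernel

end Pool.Agent.Results.MP_2f8eff_co.NoPeripheral
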